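import Pool.Agent.Helper42.PP.Goals1
import Pool.Agent.Helper42.RD.EXA

/-!
# Project PP: packet P_UPR, primes above
-/

set_option autoImplicit false

namespace Pool.Agent.Helper16.PP

open NumberField Polynomial Module IsDedekindDomain Pool.Agent.Helper51.SigLeo
open Pool.Agent.Helper51.RP Pool.Agent.Helper42.RD Pool.Agent.Helper42.PP
open Pool.Agent.Helper40.RS (bel gw bel_smul conj_of_bel)
open Pool.Agent.Helper13.RD (eq_gw)
open Pool.Agent.Helper40.RD (bel_of_above)

variable {K F : Type} [Field K] [NumberField K] [Field F] [NumberField F] [Algebra K F]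

theorem fin_above (v : HeightOneSpectrum (𝓞 K)) :
    {w : HeightOneSpectrum (𝓞 F) | Above w v}.Finite := by
  have h1 : (v.asIdeal.primesOver (𝓞 F)).Finite :=
    Algebra.QuasiFinite.finite_primesOver v.asIdeal
  refine Set.Finite.of_finite_image (f := fun w : HeightOneSpectrum (𝓞 F) => w.asIdeal)
    (h1.subset ?_) (fun w _ w' _ h => HeightOneSpectrum.ext h)
  rintro I ⟨w, hw, rfl⟩
  exact ⟨w.isPrime, ⟨hw.symm⟩⟩

theorem bel_of_conj [IsGalois K F] {w w' : HeightOneSpectrum (𝓞 F)} (h : ConjP K w' w) :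
    bel K w' = bel K w := by
  obtain ⟨g, hg⟩ := h
  rw [eq_gw g hg]
  exact bel_smul g w (gw g w) rfl

theorem above_bel (w : HeightOneSpectrum (𝓞 F)) : Above w (bel K w) := rfl

theorem p_lt (p : ℕ) (w : HeightOneSpectrum (𝓞 F)) :
    w.valuation F (p : F) < 1 ↔ (p : 𝓞 F) ∈ w.asIdeal := by
  have h0 := HeightOneSpectrum.valuation_lt_one_iff_mem (K := F) w (p : 𝓞 F)
  have h2 := congrArg (w.valuation F) (map_natCast (algebraMap (𝓞 F) F) p)
  exact ⟨fun h => h0.1 (lt_of_eq_of_lt h2 h), fun h => lt_of_eq_of_lt h2.symm (h0.2 h)⟩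

theorem p_upr : P_UPR := by
  intro p K F _ _ _ _ _ _ S
  refine ⟨?_, ?_, ?_, fun w => ⟨bel K w, rfl⟩, ?_, ?_, ?_⟩
  · have h1 : up F S = ⋃ v ∈ S, {w : HeightOneSpectrum (𝓞 F) | Above w v} := by
      ext w
      simp [up]
    rw [h1]
    exact Set.Finite.biUnion S.finite_toSet fun v _ => fin_above v
  · rintro w ⟨v, hv, hw⟩ w' hc
    refine ⟨v, hv, ?_⟩
    rw [← bel_of_above hw, ← bel_of_conj hc]
    rfl
  · intro h w hw
    refine ⟨bel K w, h _ ?_, rfl⟩
    rw [p_lt] at hw ⊢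
    show algebraMap (𝓞 K) (𝓞 F) (p : 𝓞 K) ∈ w.asIdeal
    rw [map_natCast]
    exact hw
  · intro w v v' h h'
    rw [← bel_of_above h, ← bel_of_above h']
  · intro v
    obtain ⟨W, hW⟩ := exists_bel (M₁ := F) v
    exact ⟨W, by rw [← hW]; rfl⟩
  · intro v w w' h h'
    exact conj_of_bel w' w ((bel_of_above h').trans (bel_of_above h).symm)

end Pool.Agent.Helper16.PP
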