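import Pool.Agent.Helper76.PP.Goals3

/-!
# Project PP: packet B_BLH, the data of the bilinear bound for the primes which are not visible
-/

set_option autoImplicit false

namespace Pool.Agent.Helper16.PP

open NumberField Polynomial Module IsDedekindDomain
open Pool.Agent.Helper51.RP Pool.Agent.Helper42.RD Pool.Agent.Helper42.PP
open Pool.Agent.Helper76.PP
open Pool.Agent.Helper51.SigLeo (IwasawaLog)
open Pool.Agent.Helper51.PP (RC Chs)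
open Pool.Agent.Helper17.PP (Sys)

theorem val_p {K : Type} [Field K] [NumberField K] {p : ℕ} {S : Finset (HeightOneSpectrum (𝓞 K))}
    (h : ∀ v : HeightOneSpectrum (𝓞 K), v.valuation K (p : K) < 1 → v ∈ S)
    {v : HeightOneSpectrum (𝓞 K)} (hv : v ∉ S) : v.valuation K (p : K) = 1 := by
  have h1 : v.valuation K (algebraMap (𝓞 K) K (p : 𝓞 K)) ≤ 1 := v.valuation_le_one _
  have h2 := congrArg (v.valuation K) (map_natCast (algebraMap (𝓞 K) K) p)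
  have h3 : v.valuation K (p : K) ≤ 1 := le_of_eq_of_le h2.symm h1
  rcases lt_or_eq_of_le h3 with h4 | h4
  · exact absurd (h v h4) hv
  · exact h4

theorem chI_ne {p : ℕ} {F : Type} [Field F] [NumberField F] (𝔪 : Ideal (𝓞 F))
    (ψ₁ : AddChar (ZMod p) ℂ) (h1 : ∀ a : ZMod p, ψ₁ a = 1 → a = 0) (ψ : Ideal (𝓞 F) → ZMod p)
    (I : Ideal (𝓞 F)) (h : ψ I ≠ 0) : chI 𝔪 ψ₁ ψ I ≠ 1 := by
  unfold chI
  split_ifs with h2
  · exact fun h3 => h (h1 _ h3)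
  · exact zero_ne_one

theorem chI_eq {p : ℕ} {F : Type} [Field F] [NumberField F] (𝔪 : Ideal (𝓞 F))
    (ψ₁ : AddChar (ZMod p) ℂ) (ψ : Ideal (𝓞 F) → ZMod p)
    (I : Ideal (𝓞 F)) (h : I ≠ ⊥) (h' : I ⊔ 𝔪 = ⊤) : chI 𝔪 ψ₁ ψ I = ψ₁ (ψ I) := by
  unfold chI
  rw [if_pos ⟨h, h'⟩]

theorem b_blh (h1 : B_UPH) (h2 : B_PRC) (h3 : B_IDN) (h4 : B_KAP) (h5 : P_VIS) (_h6 : P_UPR) :
    B_BLH := by
  intro p _ k _ _ K M K₁ M₁ _ _ _ _ _ _ _ _ _ _ _ _ _ _ _ _ _ _ ε hT m δ ζ Φ P _ hPhi hδ hm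
    B L T aτ E ψ₁ hψ
  obtain ⟨_, _, ⟨tr, htr⟩, _, hk⟩ := h4 p k m ζ Φ P hPhi
  have hψ1 : ∀ a : ZMod p, ψ₁ a = 1 → a = 0 := ((hk tr htr).2 ψ₁ hψ).1
  obtain ⟨hm0, hid, hco⟩ := h3 p K K₁ B.S B.abp
  have hU := h1 p k K M K₁ M₁ ε hT m δ ζ Φ P hPhi hδ hm B
  have hQ : ∀ q : B.LP, Above (B.Q q.1.1) q.1.1 ∧ FreeP K (B.Q q.1.1) := fun q =>
    B.Qa q.1.1 q.2
  have hqS : ∀ q : B.LP, q.1.1 ∉ B.S := fun q => q.2.1
  refine ⟨fun q s e => chI (modu p K₁ B.S * q.1.1.asIdeal.map (algebraMap (𝓞 K) (𝓞 K₁))) ψ₁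
    (psH B q.1.1 (-(s * (e : ZMod p) * (q.1.2 : ZMod p)⁻¹))), ?_, ?_⟩
  · intro s e hs
    refine ⟨hm0, ?_, ?_, ?_, ?_, ?_, ?_, ?_⟩
    · rintro q ⟨_, hq⟩ q' ⟨_, hq'⟩ hqq
      have e1 : Above (B.Q q'.1.1) q.1.1 := by
        have := (hQ q).1
        rwa [show B.Q q.1.1 = B.Q q'.1.1 from hqq] at this
      have e2 : q.1.1 = q'.1.1 := by
        apply HeightOneSpectrum.ext
        exact e1.symm.trans (hQ q').1
      exact Subtype.ext (Prod.ext e2 (hq.trans hq'.symm))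
    · intro q _
      exact ((h5 p K M K₁ M₁ ε hT q.1.1 (val_p B.abp (hqS q))).2.2 (B.Q q.1.1) (hQ q).1
        (hQ q).2).1
    · intro q _
      obtain ⟨a1, a2, a3, _⟩ := hid q.1.1
      exact ⟨a1, a2, a3.le⟩
    · intro q _
      exact (hid q.1.1).2.2.2.1 (hqS q)
    · intro q _ q' _ hne
      exact (hid q.1.1).2.2.2.2 q'.1.1 (fun h => hne h.symm)
    · intro q hq
      exact h2 p K₁ _ _ (hU q.1.1 hq _).1 ψ₁
    · intro q hq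
      have hγ : -(s * (e : ZMod p) * (q.1.2 : ZMod p)⁻¹) ≠ 0 := by
        rw [neg_ne_zero]
        exact mul_ne_zero (mul_ne_zero hs e.ne_zero) (inv_ne_zero q.1.2.ne_zero)
      obtain ⟨α, b1, b2, b3⟩ := (hU q.1.1 hq _).2.2 hγ
      exact ⟨α, b1, b2, chI_ne _ _ hψ1 _ _ b3⟩
  · intro s q q' hq hq'
    have hne : q'.1.1 ≠ q.1.1 := by
      intro h
      apply hq'
      show q'.1.1 ∈ B.Vis
      rw [h]
      exact hq
    have hc := hco q'.1.1 {q.1.1} (hqS q') (by rwa [Finset.mem_singleton]) (B.Q q'.1.1) (hQ q').1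
    unfold mD at hc
    rw [Finset.prod_singleton] at hc
    show chI (modu p K₁ B.S * q.1.1.asIdeal.map (algebraMap (𝓞 K) (𝓞 K₁))) ψ₁
      (psH B q.1.1 (-(s * (q'.1.2 : ZMod p) * (q.1.2 : ZMod p)⁻¹))) (B.Q q'.1.1).asIdeal = _
    rw [chI_eq _ _ _ _ (B.Q q'.1.1).ne_bot hc, (hU q.1.1 hq _).2.1 q'.1.1 q'.2]
    congr 1
    show _ = s * (-((q'.1.2 : ZMod p) * (q.1.2 : ZMod p)⁻¹ * B.pi q.1.1 q'.1.1))
    ring

end Pool.Agent.Helper16.PP
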